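import Pool.Agent.H86.IR.Targets2

/-!
# Two poles, omission of a pole, scaling, reflection (EIB)
-/

set_option autoImplicit false

open Topology Filter

namespace Pool.Agent.H33.IR

open Pool.Agent.H86.IR

theorem eib_skip (F : ℕ → ℝ) (m n : ℕ) (hm : m ≤ n) :
    ∑ k ∈ Finset.range n, skip m F k = ∑ k ∈ Finset.range (n + 1), F k - F m := by
  induction n, hm using Nat.le_induction with
  | base =>
    rw [Finset.sum_range_succ, add_sub_cancel_right]
    refine Finset.sum_congr rfl fun k hk => ?_
    unfold skip
    rw [if_pos (Finset.mem_range.1 hk)]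
  | succ n hmn ih =>
    rw [Finset.sum_range_succ, ih, Finset.sum_range_succ _ (n + 1)]
    have h1 : skip m F n = F (n + 1) := by
      unfold skip
      rw [if_neg (by omega)]
    rw [h1]
    ring

/-- the sum with the coefficients `1` at `i` and `-1` at `j` -/
theorem eib_two (F : ℕ → ℝ) {i j n : ℕ} (hi : i < n) (hj : j < n) :
    ∑ k ∈ Finset.range n, ((if k = i then (1 : ℝ) else 0) - (if k = j then 1 else 0)) * F k =
      F i - F j := by
  simp only [sub_mul, ite_mul, one_mul, zero_mul]
  rw [Finset.sum_sub_distrib, Finset.sum_ite_eq', Finset.sum_ite_eq',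
    if_pos (Finset.mem_range.2 hi), if_pos (Finset.mem_range.2 hj)]

theorem eib1 (n : ℕ) (x γ : ℕ → ℝ) (h : EI n x γ) (i j : ℕ) (hij : i < j) (hj : j < n) :
    γ i + γ j ≤ 2 * Real.log (x j - x i) := by
  obtain ⟨hmono, hE⟩ := h
  have hi : i < n := hij.trans hj
  have h1 := hE (fun k => (if k = i then (1 : ℝ) else 0) - (if k = j then 1 else 0)) (by
    have := eib_two (fun _ => 1) hi hj
    simpa using this)
  have e1 : ∑ k ∈ Finset.range n, ((if k = i then (1 : ℝ) else 0) - (if k = j then 1 else 0)) ^ 2 *
      γ k = γ i + γ j := by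
    have h2 : ∀ k ∈ Finset.range n, ((if k = i then (1 : ℝ) else 0) -
        (if k = j then 1 else 0)) ^ 2 * γ k = (if k = i then γ k else 0) +
          (if k = j then γ k else 0) := by
      intro k _
      by_cases hk : k = i
      · have hk' : ¬ k = j := by omega
        rw [if_pos hk, if_neg hk', if_pos hk, if_neg hk']
        ring
      · by_cases hk' : k = j
        · rw [if_neg hk, if_pos hk', if_neg hk, if_pos hk']
          ring
        · rw [if_neg hk, if_neg hk', if_neg hk, if_neg hk']
          ring
    rw [Finset.sum_congr rfl h2, Finset.sum_add_distrib, Finset.sum_ite_eq', Finset.sum_ite_eq',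
      if_pos (Finset.mem_range.2 hi), if_pos (Finset.mem_range.2 hj)]
  have e2 : ∑ k ∈ Finset.range n, ∑ l ∈ Finset.range n,
      ((if k = i then (1 : ℝ) else 0) - (if k = j then 1 else 0)) *
        ((if l = i then (1 : ℝ) else 0) - (if l = j then 1 else 0)) * Real.log |x k - x l| =
      -(2 * Real.log (x j - x i)) := by
    have h2 : ∀ k ∈ Finset.range n, ∑ l ∈ Finset.range n,
        ((if k = i then (1 : ℝ) else 0) - (if k = j then 1 else 0)) *
          ((if l = i then (1 : ℝ) else 0) - (if l = j then 1 else 0)) * Real.log |x k - x l| =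
        ((if k = i then (1 : ℝ) else 0) - (if k = j then 1 else 0)) *
          (Real.log |x k - x i| - Real.log |x k - x j|) := by
      intro k _
      rw [← eib_two (fun l => Real.log |x k - x l|) hi hj, Finset.mul_sum]
      refine Finset.sum_congr rfl fun l _ => ?_
      ring
    rw [Finset.sum_congr rfl h2, eib_two (fun k => Real.log |x k - x i| - Real.log |x k - x j|)
      hi hj]
    have hlt := hmono i j hij hj
    rw [sub_self, sub_self, abs_zero, Real.log_zero, abs_sub_comm (x i) (x j),
      abs_of_pos (by linarith : 0 < x j - x i)]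
    ring
  rw [e1, e2] at h1
  linarith

theorem eib2 (n : ℕ) (x γ : ℕ → ℝ) (h : EI (n + 1) x γ) (m : ℕ) (hm : m ≤ n) :
    EI n (skip m x) (skip m γ) := by
  obtain ⟨hmono, hE⟩ := h
  refine ⟨fun i j hij hj => ?_, fun α hα => ?_⟩
  · unfold skip
    split_ifs with h1 h2 h2
    · exact hmono _ _ hij (by omega)
    · exact hmono _ _ (by omega) (by omega)
    · omega
    · exact hmono _ _ (by omega) (by omega)
  · let α' : ℕ → ℝ := fun k => if k < m then α k else if k = m then 0 else α (k - 1)
    have hαm : α' m = 0 := by simp [α']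
    have hsk : ∀ k, skip m α' k = α k := by
      intro k
      unfold skip
      by_cases hk : k < m
      · rw [if_pos hk]
        simp [α', hk]
      · rw [if_neg hk]
        have h1 : ¬ k + 1 < m := by omega
        have h2 : ¬ k + 1 = m := by omega
        simp [α', h1, h2]
    have hsum : ∑ k ∈ Finset.range (n + 1), α' k = 0 := by
      have h1 := eib_skip α' m n hm
      rw [Finset.sum_congr rfl fun k _ => hsk k, hα, hαm] at h1
      linarith
    have h1 := hE α' hsum
    have e1 : ∑ k ∈ Finset.range n, α k ^ 2 * skip m γ k =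
        ∑ k ∈ Finset.range (n + 1), α' k ^ 2 * γ k := by
      have h2 := eib_skip (fun k => α' k ^ 2 * γ k) m n hm
      rw [show α' m ^ 2 * γ m = 0 by rw [hαm]; ring, sub_zero] at h2
      rw [← h2]
      refine Finset.sum_congr rfl fun k _ => ?_
      rw [← hsk k]
      unfold skip
      split_ifs <;> rfl
    have e2 : ∑ k ∈ Finset.range n, ∑ j ∈ Finset.range n, α k * α j *
        Real.log |skip m x k - skip m x j| = ∑ k ∈ Finset.range (n + 1),
          ∑ j ∈ Finset.range (n + 1), α' k * α' j * Real.log |x k - x j| := by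
      have h2 := eib_skip (fun k => ∑ j ∈ Finset.range (n + 1), α' k * α' j *
        Real.log |x k - x j|) m n hm
      have h3 : ∑ j ∈ Finset.range (n + 1), α' m * α' j * Real.log |x m - x j| = 0 := by
        refine Finset.sum_eq_zero fun j _ => ?_
        rw [hαm]
        ring
      rw [h3, sub_zero] at h2
      rw [← h2]
      refine Finset.sum_congr rfl fun k _ => ?_
      have h4 : skip m (fun k => ∑ j ∈ Finset.range (n + 1), α' k * α' j *
          Real.log |x k - x j|) k = ∑ j ∈ Finset.range (n + 1), α k * α' j *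
            Real.log |skip m x k - x j| := by
        rw [← hsk k]
        unfold skip
        split_ifs <;> rfl
      have h5 := eib_skip (fun j => α k * α' j * Real.log |skip m x k - x j|) m n hm
      rw [show α k * α' m * Real.log |skip m x k - x m| = 0 by rw [hαm]; ring, sub_zero] at h5
      rw [h4, ← h5]
      refine Finset.sum_congr rfl fun j _ => ?_
      rw [← hsk j]
      unfold skip
      split_ifs <;> rfl
    rw [e1, e2]
    exact h1

theorem eib3 (n : ℕ) (x γ : ℕ → ℝ) (h : EI n x γ) (l : ℝ) (hl : 0 < l) :
    EI n (fun k => l * x k) (fun k => γ k + Real.log l) := by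
  obtain ⟨hmono, hE⟩ := h
  refine ⟨fun i j hij hj => mul_lt_mul_of_pos_left (hmono i j hij hj) hl, fun α hα => ?_⟩
  have hne : ∀ i j, i < n → j < n → i ≠ j → x i - x j ≠ 0 := by
    intro i j hi hj hij
    rcases lt_or_gt_of_ne hij with h1 | h1
    · have := hmono i j h1 hj
      exact (by linarith : x i - x j < 0).ne
    · have := hmono j i h1 hi
      exact (by linarith : 0 < x i - x j).ne'
  have hlog : ∀ i j, i < n → j < n → Real.log |l * x i - l * x j| =
      Real.log |x i - x j| + (Real.log l - if i = j then Real.log l else 0) := by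
    intro i j hi hj
    by_cases hij : i = j
    · subst hij
      rw [if_pos rfl, sub_self, sub_self, sub_self, add_zero]
    · rw [if_neg hij, sub_zero, ← mul_sub, abs_mul, abs_of_pos hl,
        Real.log_mul hl.ne' (abs_ne_zero.2 (hne i j hi hj hij)), add_comm]
  have e1 : ∀ k ∈ Finset.range n, ∑ j ∈ Finset.range n, α k * α j *
      Real.log |l * x k - l * x j| = ∑ j ∈ Finset.range n, α k * α j * Real.log |x k - x j| -
        α k ^ 2 * Real.log l := by
    intro k hk
    have hk' := Finset.mem_range.1 hk
    have h1 : ∀ j ∈ Finset.range n, α k * α j * Real.log |l * x k - l * x j| =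
        α k * α j * Real.log |x k - x j| + (α k * Real.log l) * α j -
          (if j = k then α k * α j * Real.log l else 0) := by
      intro j hj
      rw [hlog k j hk' (Finset.mem_range.1 hj)]
      by_cases hkj : k = j
      · rw [if_pos hkj, if_pos hkj.symm]
        ring
      · rw [if_neg hkj, if_neg (fun h => hkj h.symm)]
        ring
    rw [Finset.sum_congr rfl h1, Finset.sum_sub_distrib, Finset.sum_add_distrib,
      ← Finset.mul_sum, hα, Finset.sum_ite_eq', if_pos hk]
    ring
  have h1 := hE α hα
  show ∑ k ∈ Finset.range n, α k ^ 2 * (γ k + Real.log l) + ∑ k ∈ Finset.range n,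
    ∑ j ∈ Finset.range n, α k * α j * Real.log |l * x k - l * x j| ≤ 0
  rw [Finset.sum_congr rfl e1, Finset.sum_sub_distrib]
  simp only [mul_add]
  rw [Finset.sum_add_distrib]
  linarith

theorem eib4 (n : ℕ) (x γ : ℕ → ℝ) (h : EI n x γ) :
    EI n (fun k => -x (n - 1 - k)) (fun k => γ (n - 1 - k)) := by
  obtain ⟨hmono, hE⟩ := h
  refine ⟨fun i j hij hj => ?_, fun α hα => ?_⟩
  · have := hmono (n - 1 - j) (n - 1 - i) (by omega) (by omega)
    show -x (n - 1 - i) < -x (n - 1 - j)
    linarith
  · have h1 := hE (fun k => α (n - 1 - k)) (by rw [Finset.sum_range_reflect]; exact hα)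
    have e1 : ∑ k ∈ Finset.range n, α k ^ 2 * γ (n - 1 - k) =
        ∑ k ∈ Finset.range n, α (n - 1 - k) ^ 2 * γ k := by
      rw [← Finset.sum_range_reflect]
      refine Finset.sum_congr rfl fun k hk => ?_
      have : n - 1 - (n - 1 - k) = k := by
        have := Finset.mem_range.1 hk
        omega
      rw [this]
    have e2 : ∑ k ∈ Finset.range n, ∑ j ∈ Finset.range n, α k * α j *
        Real.log |-x (n - 1 - k) - -x (n - 1 - j)| = ∑ k ∈ Finset.range n,
          ∑ j ∈ Finset.range n, α (n - 1 - k) * α (n - 1 - j) * Real.log |x k - x j| := by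
      rw [← Finset.sum_range_reflect]
      refine Finset.sum_congr rfl fun k hk => ?_
      rw [← Finset.sum_range_reflect]
      refine Finset.sum_congr rfl fun j hj => ?_
      have h2 : n - 1 - (n - 1 - k) = k := by
        have := Finset.mem_range.1 hk
        omega
      have h3 : n - 1 - (n - 1 - j) = j := by
        have := Finset.mem_range.1 hj
        omega
      rw [h2, h3, show -x k - -x j = -(x k - x j) by ring, abs_neg]
    show ∑ k ∈ Finset.range n, α k ^ 2 * γ (n - 1 - k) + ∑ k ∈ Finset.range n,
      ∑ j ∈ Finset.range n, α k * α j * Real.log |-x (n - 1 - k) - -x (n - 1 - j)| ≤ 0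
    rw [e1, e2]
    exact h1

theorem eib : T_EIB := by
  intro n x γ h
  refine ⟨eib1 n x γ h, fun m hm => ?_, eib3 n x γ h, eib4 n x γ h⟩
  obtain ⟨n', rfl⟩ : ∃ n', n = n' + 1 := ⟨n - 1, by omega⟩
  rw [Nat.add_sub_cancel]
  exact ⟨eib2 n' x γ h m (by omega), eib_skip γ m n' (by omega)⟩

end Pool.Agent.H33.IR
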