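import Pool.Agent.H86.IR.Targets2

/-!
# The upper bound (UPP)
-/

set_option autoImplicit false

open Topology Filter

namespace Pool.Agent.H33.IR

open Pool.Agent.H86.IR

theorem upp (hSRT : T_SRT) (hNUM : T_NUM) : T_UPP := by
  rintro n hn P ⟨B, a, r, hadm, hir, rfl⟩
  obtain ⟨x, γ, hEI, hL, hsum⟩ := hSRT n B a r hn hadm hir
  have h1 := hNUM n hn x γ hEI hL
  rw [hsum] at h1
  have hpos : 0 < ∏ k, r k := Finset.prod_pos fun k _ => (hir k).1
  have hn0 : (0 : ℝ) < n := by
    have : 0 < n := by omega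
    exact_mod_cast this
  have hq : 0 < 4 / (Real.pi * n) := div_pos (by norm_num) (mul_pos Real.pi_pos hn0)
  have h2 : Real.log (10 ^ 5) + n * Real.log (4 / (Real.pi * n)) =
      Real.log (10 ^ 5 * (4 / (Real.pi * n)) ^ n) := by
    rw [Real.log_mul (by norm_num) (pow_pos hq n).ne', Real.log_pow (4 / (Real.pi * n)) n]
  rw [h2] at h1
  exact (Real.log_le_log_iff hpos (mul_pos (by norm_num) (pow_pos hq n))).1 h1

end Pool.Agent.H33.IR
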