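import Pool.Agent.H86.IR.Targets2

/-!
# The end of the segment (X0)
-/

set_option autoImplicit false

open Topology Filter

namespace Pool.Agent.H33.IR

open Pool.Agent.H86.IR

theorem x0_alt (h : ℕ → ℝ) (M : ℕ) (hanti : ∀ j < M, h (j + 1) ≤ h j)
    (_hpos : ∀ j ≤ M, 0 ≤ h j) (n : ℕ) (hn : n ≤ M) :
    (Even n → ∑ j ∈ Finset.range (n + 1), (-1) ^ j * h j ≤ h 0) ∧
      (¬ Even n → ∑ j ∈ Finset.range (n + 1), (-1) ^ j * h j ≤ h 0 - h n) := by
  induction n with
  | zero => simp
  | succ n ih =>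
    obtain ⟨h1, h2⟩ := ih (by omega)
    rw [Finset.sum_range_succ]
    by_cases he : Even n
    · have ho : ¬ Even (n + 1) := by
        rw [Nat.even_add_one]
        exact fun h => h he
      refine ⟨fun h => absurd h ho, fun _ => ?_⟩
      have h3 : (-1 : ℝ) ^ (n + 1) = -1 := (Nat.not_even_iff_odd.1 ho).neg_one_pow
      rw [h3]
      linarith [h1 he]
    · have ho : Even (n + 1) := Nat.even_add_one.2 he
      refine ⟨fun _ => ?_, fun h => absurd ho h⟩
      rw [ho.neg_one_pow]
      linarith [h2 he, hanti n (by omega)]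

theorem x0_alt' (h : ℕ → ℝ) (M : ℕ) (hanti : ∀ j < M, h (j + 1) ≤ h j)
    (hpos : ∀ j ≤ M, 0 ≤ h j) (m : ℕ) (hm : m ≤ M + 1) :
    ∑ j ∈ Finset.range m, (-1) ^ j * h j ≤ h 0 := by
  cases m with
  | zero =>
    rw [Finset.range_zero, Finset.sum_empty]
    exact hpos 0 (Nat.zero_le _)
  | succ n =>
    obtain ⟨h1, h2⟩ := x0_alt h M hanti hpos n (by omega)
    by_cases he : Even n
    · exact h1 he
    · have := hpos n (by omega)
      linarith [h2 he]

theorem x0_wt (M : ℕ) (h : ℕ → ℝ) : ∑ j ∈ Finset.range (M + 1), wt (M + 1) (j + 1) * h j =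
    -((∑ j ∈ Finset.range M, (-1) ^ j * h j + ∑ j ∈ Finset.range (M + 1), (-1) ^ j * h j) / 2) := by
  rw [Finset.sum_range_succ, Finset.sum_range_succ _ M]
  have h1 : ∀ j ∈ Finset.range M, wt (M + 1) (j + 1) * h j = -((-1) ^ j * h j) := by
    intro j hj
    have hj' := Finset.mem_range.1 hj
    unfold wt
    rw [if_neg (by omega), if_neg (by omega), pow_succ]
    ring
  have h2 : wt (M + 1) (M + 1) = -((-1) ^ M / 2) := by
    unfold wt
    rw [if_neg (by omega), if_pos rfl, pow_succ]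
    ring
  rw [Finset.sum_congr rfl h1, h2, Finset.sum_neg_distrib]
  ring

theorem x0_sum (M : ℕ) : ∑ k ∈ Finset.range (M + 1 + 1), wt (M + 1) k = 0 := by
  have h0 : ∀ m : ℕ, ∑ j ∈ Finset.range m, (-1 : ℝ) ^ j * 1 = (1 - (-1) ^ m) / 2 := by
    intro m
    induction m with
    | zero => simp
    | succ m ih =>
      rw [Finset.sum_range_succ, ih, pow_succ]
      ring
  have h1 := x0_wt M (fun _ => 1)
  rw [h0, h0] at h1
  rw [Finset.sum_range_succ']
  have h2 : wt (M + 1) 0 = 1 / 2 := by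
    unfold wt
    rw [if_pos rfl]
  have h3 : ∑ k ∈ Finset.range (M + 1), wt (M + 1) (k + 1) =
      ∑ k ∈ Finset.range (M + 1), wt (M + 1) (k + 1) * 1 := by simp
  rw [h3, h1, h2, pow_succ]
  ring

theorem x0_split (N : ℕ) (L : ℕ → ℕ → ℝ) (hL : ∀ k, L k 0 = L 0 k) :
    ∑ k ∈ Finset.range (N + 1), ∑ j ∈ Finset.range (N + 1), wt N k * wt N j * L k j =
      ∑ k ∈ Finset.range N, ∑ j ∈ Finset.range N, wt N (k + 1) * wt N (j + 1) *
        L (k + 1) (j + 1) + ∑ j ∈ Finset.range N, wt N (j + 1) * L 0 (j + 1) + L 0 0 / 4 := by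
  have h2 : wt N 0 = 1 / 2 := by
    unfold wt
    rw [if_pos rfl]
  rw [Finset.sum_range_succ']
  have h3 : ∀ k ∈ Finset.range N, ∑ j ∈ Finset.range (N + 1), wt N (k + 1) * wt N j *
      L (k + 1) j = ∑ j ∈ Finset.range N, wt N (k + 1) * wt N (j + 1) * L (k + 1) (j + 1) +
        wt N (k + 1) * L 0 (k + 1) / 2 := by
    intro k _
    rw [Finset.sum_range_succ', h2, hL]
    ring
  have h4 : ∑ j ∈ Finset.range (N + 1), wt N 0 * wt N j * L 0 j =
      ∑ j ∈ Finset.range N, wt N (j + 1) * L 0 (j + 1) / 2 + L 0 0 / 4 := by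
    rw [Finset.sum_range_succ', h2]
    congr 1
    · refine Finset.sum_congr rfl fun j _ => ?_
      ring
    · ring
  rw [Finset.sum_congr rfl h3, h4, Finset.sum_add_distrib]
  have h5 : ∑ j ∈ Finset.range N, wt N (j + 1) * L 0 (j + 1) =
      ∑ j ∈ Finset.range N, wt N (j + 1) * L 0 (j + 1) / 2 +
        ∑ j ∈ Finset.range N, wt N (j + 1) * L 0 (j + 1) / 2 := by
    rw [← Finset.sum_add_distrib]
    refine Finset.sum_congr rfl fun j _ => ?_
    ring
  rw [h5]
  ring

theorem x0 (hPHI : T_PHI) : T_X0 := by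
  intro N t hN ht0 hmono
  obtain ⟨M, rfl⟩ : ∃ M, N = M + 1 := ⟨N - 1, by omega⟩
  have hpos : ∀ k < M + 1, 0 < t (k + 1) := by
    intro k hk
    have := hmono 0 (k + 1) (by omega) (by omega)
    rwa [ht0] at this
  have ht1 : 0 < t 1 := hpos 0 (by omega)
  have hl : 0 < t 1 / 3 := by positivity
  have hA := hPHI.1 (Finset.range (M + 1)) (fun k => t (k + 1)) (fun k => wt (M + 1) (k + 1))
    (t 1 / 3) (fun k hk => hpos k (Finset.mem_range.1 hk)) hl.le
  have hC := hPHI.2 (Finset.range (M + 1 + 1)) t (wt (M + 1)) (t 1 / 3) (fun k hk => by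
    cases k with
    | zero => rw [ht0]
    | succ k =>
      have := Finset.mem_range.1 hk
      exact (hpos k (by omega)).le) hl (x0_sum M)
  rw [x0_split (M + 1) (fun k j => Real.log (t k + t j + t 1 / 3)) (fun k => by
    show Real.log (t k + t 0 + t 1 / 3) = Real.log (t 0 + t k + t 1 / 3)
    rw [add_comm (t k)])] at hC
  rw [x0_split (M + 1) (fun k j => Real.log (t k + t j)) (fun k => by
    show Real.log (t k + t 0) = Real.log (t 0 + t k)
    rw [add_comm (t k)])]
  simp only [ht0, zero_add, Real.log_zero, zero_div, add_zero] at hA hC ⊢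
  -- the alternating sum
  let h : ℕ → ℝ := fun j => Real.log (t (j + 1) + t 1 / 3) - Real.log (t (j + 1))
  have hh : ∀ j < M + 1, h j = Real.log (1 + t 1 / 3 / t (j + 1)) := by
    intro j hj
    have h1 := hpos j hj
    show Real.log (t (j + 1) + t 1 / 3) - Real.log (t (j + 1)) = _
    rw [← Real.log_div (by positivity) h1.ne']
    congr 1
    field_simp
  have hanti : ∀ j < M, h (j + 1) ≤ h j := by
    intro j hj
    rw [hh j (by omega), hh (j + 1) (by omega)]
    have h1 := hpos j (by omega)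
    have h2 := hpos (j + 1) (by omega)
    refine Real.log_le_log (by positivity) ?_
    have h3 := hmono (j + 1) (j + 1 + 1) (by omega) (by omega)
    have h4 : t 1 / 3 / t (j + 1 + 1) ≤ t 1 / 3 / t (j + 1) :=
      div_le_div_of_nonneg_left hl.le h1 h3.le
    linarith
  have hnn : ∀ j ≤ M, 0 ≤ h j := by
    intro j hj
    rw [hh j (by omega)]
    have h1 := hpos j (by omega)
    apply Real.log_nonneg
    have : 0 ≤ t 1 / 3 / t (j + 1) := by positivity
    linarith
  have h0 : h 0 = Real.log (4 / 3) := by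
    rw [hh 0 (by omega)]
    congr 1
    rw [zero_add]
    field_simp
    norm_num
  have hB : ∑ j ∈ Finset.range (M + 1), wt (M + 1) (j + 1) * Real.log (t (j + 1)) ≤
      ∑ j ∈ Finset.range (M + 1), wt (M + 1) (j + 1) * Real.log (t (j + 1) + t 1 / 3) +
        Real.log (4 / 3) := by
    have h1 := x0_wt M h
    have h2 := x0_alt' h M hanti hnn M (by omega)
    have h3 := x0_alt' h M hanti hnn (M + 1) le_rfl
    have h4 : ∑ j ∈ Finset.range (M + 1), wt (M + 1) (j + 1) * h j =
        ∑ j ∈ Finset.range (M + 1), wt (M + 1) (j + 1) * Real.log (t (j + 1) + t 1 / 3) -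
          ∑ j ∈ Finset.range (M + 1), wt (M + 1) (j + 1) * Real.log (t (j + 1)) := by
      rw [← Finset.sum_sub_distrib]
      refine Finset.sum_congr rfl fun j _ => ?_
      show wt (M + 1) (j + 1) * (Real.log (t (j + 1) + t 1 / 3) - Real.log (t (j + 1))) = _
      ring
    rw [h0] at h2 h3
    linarith
  have hlog : Real.log (t 1 / 3) = Real.log (t 1) - Real.log 3 :=
    Real.log_div ht1.ne' (by norm_num)
  rw [hlog] at hC
  linarith

end Pool.Agent.H33.IR
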