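import Pool.Agent.H86.IR.Targets2

/-!
# The bound for the kernel `eta` (YB)
-/

set_option autoImplicit false

open Topology Filter

namespace Pool.Agent.H33.IR

open Pool.Agent.H86.IR

/-- exchange inequality for a concave function -/
theorem yb_conc {S : Set ℝ} {φ : ℝ → ℝ} (h : ConcaveOn ℝ S φ) {A e d : ℝ} (he : 0 ≤ e)
    (hd : 0 ≤ d) (h1 : A ∈ S) (h2 : A + e + d ∈ S) :
    φ A + φ (A + e + d) ≤ φ (A + e) + φ (A + d) := by
  rcases eq_or_lt_of_le (add_nonneg he hd) with h0 | hpos
  · have he0 : e = 0 := by linarith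
    have hd0 : d = 0 := by linarith
    subst he0
    subst hd0
    simp
  · have p1 : 0 ≤ d / (e + d) := div_nonneg hd hpos.le
    have p2 : 0 ≤ e / (e + d) := div_nonneg he hpos.le
    have p3 : d / (e + d) + e / (e + d) = 1 := by
      field_simp
      ring
    have hs := h.2 h1 h2 p1 p2 p3
    have hs' := h.2 h1 h2 p2 p1 (by rw [add_comm]; exact p3)
    simp only [smul_eq_mul] at hs hs'
    have e1 : d / (e + d) * A + e / (e + d) * (A + e + d) = A + e := by
      field_simp
      ring
    have e2 : e / (e + d) * A + d / (e + d) * (A + e + d) = A + d := by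
      field_simp
      ring
    rw [e1] at hs
    rw [e2] at hs'
    have e3 : d / (e + d) * φ A + e / (e + d) * φ (A + e + d) +
        (e / (e + d) * φ A + d / (e + d) * φ (A + e + d)) = φ A + φ (A + e + d) := by
      field_simp
      ring
    linarith

theorem yb (hABL : T_ABL) (hETA : T_ETA) : T_YB := by
  intro N t ht
  obtain ⟨hcc, hneg⟩ := hETA
  have hpi := Real.pi_pos
  have hmono : ∀ i j, i ≤ j → j ≤ N → t i ≤ t j := by
    intro i j hij hj
    rcases eq_or_lt_of_le hij with h | h
    · rw [h]
    · exact (ht.mono i j h hj).le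
  have h0 : ∀ i ≤ N, 0 ≤ t i := fun i hi => by
    have := hmono 0 i (Nat.zero_le _) hi
    rwa [ht.zero] at this
  have hN : ∀ i ≤ N, t i ≤ Real.pi := fun i hi => by
    have := hmono i N hi le_rfl
    rwa [ht.last] at this
  have heta0 : eta 0 = 0 := by
    unfold eta
    simp
  have hS : ∀ s : ℝ, 0 ≤ s → s ≤ Real.pi → s ∈ Set.Ico 0 (2 * Real.pi) := fun s h1 h2 =>
    ⟨h1, by linarith⟩
  have hkey : ∀ a b : ℕ, b < a → a < N → 0 ≤ eta |t a - t b| - eta |t (a + 1) - t b| -
      eta |t a - t (b + 1)| + eta |t (a + 1) - t (b + 1)| := by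
    intro a b hba ha
    have h1 := hmono (b + 1) a (by omega) (by omega)
    have h2 := hmono b (b + 1) (by omega) (by omega)
    have h3 := hmono a (a + 1) (by omega) (by omega)
    have h4 := h0 b (by omega)
    have h5 := hN (a + 1) (by omega)
    have h6 := yb_conc hcc (A := t a - t (b + 1)) (e := t (b + 1) - t b) (d := t (a + 1) - t a)
      (by linarith) (by linarith) (hS _ (by linarith) (by linarith [h0 (b + 1) (by omega)]))
      (hS _ (by linarith) (by linarith))
    have e1 : t a - t (b + 1) + (t (b + 1) - t b) + (t (a + 1) - t a) = t (a + 1) - t b := by ring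
    have e2 : t a - t (b + 1) + (t (b + 1) - t b) = t a - t b := by ring
    have e3 : t a - t (b + 1) + (t (a + 1) - t a) = t (a + 1) - t (b + 1) := by ring
    rw [e1, e2, e3] at h6
    rw [abs_of_nonneg (by linarith : 0 ≤ t a - t b),
      abs_of_nonneg (by linarith : 0 ≤ t (a + 1) - t b),
      abs_of_nonneg (by linarith : 0 ≤ t a - t (b + 1)),
      abs_of_nonneg (by linarith : 0 ≤ t (a + 1) - t (b + 1))]
    linarith
  have h1 := hABL N (fun k j => eta |t k - t j|) ht.pos (Or.inl (by
    intro a ha b hb
    show 0 ≤ eta |t a - t b| - eta |t (a + 1) - t b| - eta |t a - t (b + 1)| +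
      eta |t (a + 1) - t (b + 1)|
    rcases lt_trichotomy a b with h | h | h
    · have h2 := hkey b a h hb
      rw [abs_sub_comm (t b) (t a), abs_sub_comm (t (b + 1)) (t a),
        abs_sub_comm (t b) (t (a + 1)), abs_sub_comm (t (b + 1)) (t (a + 1))] at h2
      linarith
    · subst h
      have h2 := hmono a (a + 1) (by omega) (by omega)
      have h3 := h0 a (by omega)
      have h4 := hN (a + 1) (by omega)
      rw [sub_self, sub_self, abs_zero, heta0, abs_sub_comm (t a) (t (a + 1)),
        abs_of_nonneg (by linarith : 0 ≤ t (a + 1) - t a)]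
      have h5 := hneg (t (a + 1) - t a) (hS _ (by linarith) (by linarith))
      linarith
    · exact hkey a b h ha))
  refine h1.trans (le_of_eq ?_)
  simp only [ht.zero, ht.last, sub_self, sub_zero, zero_sub, abs_zero, abs_neg, heta0,
    abs_of_pos hpi]
  have h2 : eta Real.pi = -Real.log (Real.pi / 2) := by
    unfold eta
    rw [Real.sin_pi_div_two, mul_one, ← Real.log_inv, inv_div]
  rw [h2]
  have h3 : 0 ≤ Real.log (Real.pi / 2) := by
    apply Real.log_nonneg
    have := Real.two_le_pi
    linarith
  rw [show - -Real.log (Real.pi / 2) - -Real.log (Real.pi / 2) + 0 =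
    2 * Real.log (Real.pi / 2) by ring, abs_of_nonneg (by linarith)]
  ring

end Pool.Agent.H33.IR
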